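import Pool.Agent.Lib_MP_a71bf8_lb.Final

/-!
# MP_a71bf8_co: both values are at least `k / (10 log (8 k))` for all `n ≥ 2 k`
-/

namespace Pool.Agent.Results.MP_a71bf8_co.KOverLog

open Pool.Agent.MP_a71bf8_co

theorem result : ∀ n k : ℕ, 1 ≤ k → 2 * k ≤ n →
    (k : ℝ) / (10 * Real.log (8 * k)) ≤ tauMax n k ∧
      (k : ℝ) / (10 * Real.log (8 * k)) ≤ tauMin n k :=
  fun _ _ hk hn => Pool.Agent.MP_a71bf8_lb.final hk hn

end Pool.Agent.Results.MP_a71bf8_co.KOverLog
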