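import Pool.Agent.Lib_MP_a71bf8_co.Arith

/-!
# MP_a71bf8_co: a lower bound for both values, nearly `k` as long as `n` is much smaller than
`k ^ 2 / log k`
-/

namespace Pool.Agent.Results.MP_a71bf8_co.LowerBound

open Pool.Agent.MP_a71bf8_co

theorem result : ∀ n k : ℕ, 1 ≤ k → 2 * k ≤ n →
    (k : ℝ) - n / k * Real.log (2 * n + 2) ≤ tauMax n k ∧
      (k : ℝ) - n / k * Real.log (2 * n + 2) ≤ tauMin n k :=
  fun _ _ hk hn => lower_log hk hn

end Pool.Agent.Results.MP_a71bf8_co.LowerBound
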