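import Pool.Agent.Lib_MP_a71bf8_co.Arith

/-!
# MP_a71bf8_co: bounded first-mover dependence for `n ≤ 2 k + k ^ α`, `α < 1`
-/

namespace Pool.Agent.Results.MP_a71bf8_co.NearTwoK

open Pool.Agent.MP_a71bf8_co

theorem result : ∀ α : ℝ, 0 ≤ α → α < 1 → ∃ c : ℕ, ∀ n k : ℕ, 1 ≤ k → k ≤ n →
    (n : ℝ) ≤ 2 * k + (k : ℝ) ^ α →
      |(tauMax n k : ℤ) - (tauMin n k : ℤ)| ≤ c ∧
      (c ≤ k → |(tauMax n k : ℤ) - (tauMin n k : ℤ)| ≤ ⌊1 / (1 - α)⌋) := by
  intro α hα0 hα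
  have h1α : 0 < 1 - α := by linarith
  set J : ℕ := ⌊1 / (1 - α)⌋₊ + 1 with hJ
  have hJ1 : 1 ≤ J := by omega
  have hJr : 1 / (1 - α) < J := by
    rw [hJ]
    push_cast
    exact Nat.lt_floor_add_one _
  set δ : ℝ := J * (1 - α) - 1 with hδ
  have hδ0 : 0 < δ := by
    rw [div_lt_iff₀ h1α] at hJr
    linarith
  have hfl : (⌊1 / (1 - α)⌋ : ℤ) = (J : ℤ) - 1 := by
    rw [hJ, ← Int.natCast_floor_eq_floor (by positivity)]
    push_cast
    ring
  set M : ℝ := 7 * (1 + J) ^ J with hM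
  have hM0 : 0 < M := by positivity
  refine ⟨⌈M ^ (1 / δ)⌉₊ + 1 + J, fun n k hk hkn hn => ?_⟩
  rw [hfl]
  by_cases h2 : n < 2 * k
  · rw [tau_small h2, sub_self, abs_zero]
    refine ⟨by positivity, fun _ => by omega⟩
  rw [not_lt] at h2
  have hup := tau_le hk hkn
  by_cases hk0 : k < ⌈M ^ (1 / δ)⌉₊ + 1 + J
  · rw [abs_le]
    refine ⟨⟨by omega, by omega⟩, fun h => absurd hk0 (by omega)⟩
  rw [not_lt] at hk0
  have hJk : J ≤ k := by omega
  obtain ⟨r, rfl⟩ := Nat.exists_eq_add_of_le h2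
  have hk1 : (1 : ℝ) ≤ k := by exact_mod_cast hk
  have hkβ1 : (1 : ℝ) ≤ (k : ℝ) ^ α := Real.one_le_rpow hk1 hα0
  have hkβk : (k : ℝ) ^ α ≤ k := by
    calc (k : ℝ) ^ α ≤ (k : ℝ) ^ (1 : ℝ) := Real.rpow_le_rpow_of_exponent_le hk1 hα.le
      _ = k := Real.rpow_one _
  have hr : (r : ℝ) ≤ (k : ℝ) ^ α := by
    push_cast at hn
    linarith
  have hJ0 : (0 : ℝ) ≤ J := Nat.cast_nonneg J
  have hMk : M < (k : ℝ) ^ δ := by
    have h3 : M ^ (1 / δ) < k := by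
      have h4 : M ^ (1 / δ) ≤ ⌈M ^ (1 / δ)⌉₊ := Nat.le_ceil _
      have h5 : ((⌈M ^ (1 / δ)⌉₊ + 1 + J : ℕ) : ℝ) ≤ k := by exact_mod_cast hk0
      push_cast at h5
      linarith
    calc M = (M ^ (1 / δ)) ^ δ := by
          rw [← Real.rpow_mul hM0.le, one_div_mul_cancel hδ0.ne', Real.rpow_one]
      _ < (k : ℝ) ^ δ := Real.rpow_lt_rpow (by positivity) h3 hδ0
  have key : (2 * (2 * (k : ℝ) + r) + 1) * ((r : ℝ) + J) ^ J < ((k : ℝ) + r + J) ^ J := by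
    have e1 : (r : ℝ) + J ≤ (1 + J) * (k : ℝ) ^ α := by nlinarith
    have e2 : ((r : ℝ) + J) ^ J ≤ (1 + J) ^ J * (k : ℝ) ^ (α * J) := by
      calc ((r : ℝ) + J) ^ J ≤ ((1 + J) * (k : ℝ) ^ α) ^ J :=
            pow_le_pow_left₀ (by positivity) e1 J
        _ = _ := by rw [mul_pow, Real.rpow_mul (by linarith), Real.rpow_natCast]
    have e3 : 2 * (2 * (k : ℝ) + r) + 1 ≤ 7 * k := by linarith
    have hpos : (0 : ℝ) < (k : ℝ) ^ (α * J) := by positivity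
    calc (2 * (2 * (k : ℝ) + r) + 1) * ((r : ℝ) + J) ^ J
        ≤ (7 * k) * ((1 + J) ^ J * (k : ℝ) ^ (α * J)) := by gcongr
      _ = M * (k * (k : ℝ) ^ (α * J)) := by rw [hM]; ring
      _ < (k : ℝ) ^ δ * (k * (k : ℝ) ^ (α * J)) := by
          apply mul_lt_mul_of_pos_right hMk
          positivity
      _ = (k : ℝ) ^ (J : ℝ) := by
          have : (J : ℝ) = δ + (1 + α * J) := by rw [hδ]; ring
          rw [this, Real.rpow_add (by linarith), Real.rpow_add (by linarith), Real.rpow_one]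
          congr 3
          rw [← this]
      _ = (k : ℝ) ^ J := Real.rpow_natCast _ _
      _ ≤ _ := by
          apply pow_le_pow_left₀ (by linarith)
          have : (0 : ℝ) ≤ r := Nat.cast_nonneg r
          linarith
  have key' : (2 * (2 * k + r) + 1) * (2 * k + r - 2 * k + J) ^ J < (2 * k + r - k + J) ^ J := by
    have e1 : 2 * k + r - 2 * k = r := by omega
    have e2 : 2 * k + r - k = k + r := by omega
    rw [e1, e2]
    exact_mod_cast key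
  have hl := lower hJ1 hJk h2 key'
  rw [abs_le, abs_le]
  push_cast
  refine ⟨⟨by omega, by omega⟩, fun _ => ⟨by omega, by omega⟩⟩

end Pool.Agent.Results.MP_a71bf8_co.NearTwoK
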